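import Pool.Agent.Q92.HT.Main
import Pool.Agent.Q92.HT.Grp

/-!
# Faithful actions that are n-Liouville for every n (MP_2579e4_al, Q1)

The group of the permutations of the free group `F2` of rank two which agree with a left
translation outside a finite set is countable, surjects onto `F2`, and is highly transitive on
`F2`. For every highly transitive action of a countable group on a countable set `X` there is a
measure `μ = ∑ c_i ν_i` of full support, where `ν_i` is uniform on elements realising all the
injections of a finite set `W_i` into a larger finite set, such that all the actions on the
`n`-element subsets of `X` are `μ`-Liouville. The sets `W_i` are chosen recursively: `W_i` contains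
all the points which can be reached from `W_{i-1} ∪ {x_i}` in `(i+1)^2` steps of the supports
of the `ν_j`, `j < i`. The average of a function over `ν_i` is constant on the `n`-subsets of
`W_i`, so that harmonic functions lose a factor `1 - 1/(m+1)` of their oscillation in each of
`(m+1)^2` steps.
-/

set_option autoImplicit false

namespace Pool.Agent.Results.MP_2579e4_al.HighlyTransitive

open Pool.Agent.Q92.HT

/-- There are a countable non-amenable group `G`, a faithful action of `G` on a set `X` and one
non-degenerate probability measure `μ` on `G` such that for every `n ≥ 1` the action of `G` on the
set of `n`-element subsets of `X` is `μ`-Liouville. -/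
theorem result :
    ∃ (G : Type) (_ : Group G) (X : Type) (_ : DecidableEq X) (_ : MulAction G X),
      Countable G ∧ FaithfulSMul G X ∧ ¬ IsAmenable G ∧
      ∃ μ : G → ℝ, IsNonDegenerate μ ∧
        ∀ n : ℕ, 1 ≤ n → IsLiouvilleFor (Set.powersetCard X n) μ := by
  have := countable_AG
  have := countable_F2
  obtain ⟨μ, hμ, -, hL⟩ := liouville_of_highlyTransitive highlyTransitive_AG
  exact ⟨AG, inferInstance, F2, inferInstance, inferInstance, countable_AG, faithful_AG,
    not_amenable_AG, μ, hμ, fun n _ => hL n⟩

end Pool.Agent.Results.MP_2579e4_al.HighlyTransitive
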